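import Pool.Agent.Q56.UN.Uni

/-!
# Pairs between consecutive squares
-/

set_option autoImplicit false

namespace Pool.Agent.Q56.UN

open Finset Filter
open Pool.Agent.Y843.HS (Pr VV Pr_mem Pr_prime VV_split)
open Pool.Agent.Y843.HG (V1 V1_bounds V1_pos fac1)
open Pool.Agent.Q56.LN (AP Zc dvd_eval_iff)

/-- the number of the excluded classes -/
def nuN (N q : ℕ) : ℕ := if q ∣ 2 * (N ^ 2 + N + 1) then 1 else 2

/-- the sieve product for the pairs -/
noncomputable def VN (N : ℕ) : ℝ := ∏ q ∈ (Icc 1 (2 * N)).filter Nat.Prime, (1 - (nuN N q : ℝ) / q)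

noncomputable def gN (N : ℕ) : Fin 2 → Polynomial ℤ :=
  ![Polynomial.X + Polynomial.C ((N : ℤ) ^ 2 + 1), Polynomial.C (((N : ℤ) + 1) ^ 2) - Polynomial.X]

theorem gN0 (N : ℕ) (x : ℤ) : (gN N 0).eval x = N ^ 2 + x + 1 := by
  unfold gN; simp; ring

theorem gN1 (N : ℕ) (x : ℤ) : (gN N 1).eval x = (N + 1) ^ 2 - x := by
  unfold gN; simp

theorem gN_prod (N : ℕ) (x : ℤ) : (∏ k, gN N k).eval x = (N ^ 2 + x + 1) * ((N + 1) ^ 2 - x) := by
  rw [Fin.prod_univ_two, Polynomial.eval_mul, gN0, gN1]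

theorem gN_deg (N : ℕ) : ∑ k, (gN N k).natDegree ≤ 2 := by
  rw [Fin.sum_univ_two]
  have h0 : (gN N 0).natDegree ≤ 1 := by
    unfold gN
    simp only [Matrix.cons_val_zero]
    exact (Polynomial.natDegree_add_le _ _).trans (by rw [Polynomial.natDegree_X, Polynomial.natDegree_C]; simp)
  have h1 : (gN N 1).natDegree ≤ 1 := by
    unfold gN
    simp only [Matrix.cons_val_one, Matrix.cons_val_fin_one]
    exact (Polynomial.natDegree_sub_le _ _).trans (by rw [Polynomial.natDegree_X, Polynomial.natDegree_C]; simp)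
  omega

theorem gN_ne (N : ℕ) (k : Fin 2) (z : ℤ) : gN N k ≠ Polynomial.C z := by
  intro h
  have h1 := congrArg (Polynomial.eval 0) h
  have h2 := congrArg (Polynomial.eval 1) h
  rw [Polynomial.eval_C] at h1 h2
  fin_cases k
  · simp only [Fin.zero_eta, Fin.isValue, gN0] at h1 h2
    omega
  · simp only [Fin.mk_one, Fin.isValue, gN1] at h1 h2
    omega

theorem gN_fix (N : ℕ) : NoFix (∏ k, gN N k) := by
  intro q hq
  by_cases h : (q : ℤ) ∣ ((N : ℤ) + 1) ^ 2 + N ^ 2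
  · refine ⟨-(N : ℤ) ^ 2 + 1, ?_⟩
    rw [gN_prod]
    have hq2 : q ≠ 2 := by
      rintro rfl
      have h1 : ((N : ℤ) + 1) ^ 2 + N ^ 2 = 2 * (N * (N + 1)) + 1 := by ring
      rw [h1] at h
      push_cast at h
      omega
    intro hd
    rcases (Nat.prime_iff_prime_int.1 hq).dvd_mul.1 hd with h1 | h1
    · rw [show (N : ℤ) ^ 2 + (-(N : ℤ) ^ 2 + 1) + 1 = ((2 : ℕ) : ℤ) by push_cast; ring] at h1
      exact hq2 ((Nat.prime_dvd_prime_iff_eq hq Nat.prime_two).1 (by exact_mod_cast h1))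
    · rw [show ((N : ℤ) + 1) ^ 2 - (-(N : ℤ) ^ 2 + 1) = (((N : ℤ) + 1) ^ 2 + N ^ 2) - 1 by ring] at h1
      have h2 := dvd_sub h h1
      rw [show ((N : ℤ) + 1) ^ 2 + N ^ 2 - (((N : ℤ) + 1) ^ 2 + N ^ 2 - 1) = 1 by ring] at h2
      exact (Nat.prime_iff_prime_int.1 hq).not_isUnit (isUnit_of_dvd_one h2)
  · refine ⟨-(N : ℤ) ^ 2, ?_⟩
    rw [gN_prod]
    intro hd
    rcases (Nat.prime_iff_prime_int.1 hq).dvd_mul.1 hd with h1 | h1
    · rw [show (N : ℤ) ^ 2 + (-(N : ℤ) ^ 2) + 1 = 1 by ring] at h1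
      exact (Nat.prime_iff_prime_int.1 hq).not_isUnit (isUnit_of_dvd_one h1)
    · apply h
      rw [show ((N : ℤ) + 1) ^ 2 - (-(N : ℤ) ^ 2) = ((N : ℤ) + 1) ^ 2 + N ^ 2 by ring] at h1
      exact h1

/-- the root of a shift -/
theorem nuP_eq (N : ℕ) {q : ℕ} (hq : q.Prime) : nuP (∏ k, gN N k) q = nuN N q := by
  classical
  have hq0 : (0 : ℤ) < q := by exact_mod_cast hq.pos
  have hqn : (q : ℤ) ≠ 0 := hq0.ne'
  have hpi := Nat.prime_iff_prime_int.1 hq
  -- the two roots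
  obtain ⟨a, ha⟩ : ∃ a : ℕ, a = (((-((N : ℤ) ^ 2 + 1)) % q)).toNat := ⟨_, rfl⟩
  obtain ⟨b, hb⟩ : ∃ b : ℕ, b = (((((N : ℤ) + 1) ^ 2) % q)).toNat := ⟨_, rfl⟩
  have haq : (a : ℤ) ≡ -((N : ℤ) ^ 2 + 1) [ZMOD q] := by
    rw [ha, Int.toNat_of_nonneg (Int.emod_nonneg _ hqn)]
    exact Int.mod_modEq _ _
  have hbq : (b : ℤ) ≡ ((N : ℤ) + 1) ^ 2 [ZMOD q] := by
    rw [hb, Int.toNat_of_nonneg (Int.emod_nonneg _ hqn)]
    exact Int.mod_modEq _ _
  have hal : a < q := by
    have h1 := Int.emod_lt_of_pos (-((N : ℤ) ^ 2 + 1)) hq0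
    have h2 := Int.emod_nonneg (-((N : ℤ) ^ 2 + 1)) hqn
    omega
  have hbl : b < q := by
    have h1 := Int.emod_lt_of_pos (((N : ℤ) + 1) ^ 2) hq0
    have h2 := Int.emod_nonneg (((N : ℤ) + 1) ^ 2) hqn
    omega
  have hset : (range q).filter (fun x : ℕ => (q : ℤ) ∣ (∏ k, gN N k).eval (x : ℤ)) = {a, b} := by
    ext x
    rw [mem_filter, mem_range, mem_insert, mem_singleton, gN_prod, hpi.dvd_mul]
    constructor
    · rintro ⟨h1, h2 | h2⟩
      · left
        have h3 : (x : ℤ) ≡ a [ZMOD q] := by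
          refine Int.ModEq.trans ?_ haq.symm
          rw [Int.modEq_iff_dvd]
          rw [show -((N : ℤ) ^ 2 + 1) - x = -(N ^ 2 + x + 1) by ring]
          exact (dvd_neg).2 h2
        have h4 : x ≡ a [MOD q] := by exact_mod_cast h3
        exact Nat.ModEq.eq_of_lt_of_lt h4 h1 hal
      · right
        have h3 : (x : ℤ) ≡ b [ZMOD q] := by
          refine Int.ModEq.trans ?_ hbq.symm
          rw [Int.modEq_iff_dvd]
          exact h2
        have h4 : x ≡ b [MOD q] := by exact_mod_cast h3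
        exact Nat.ModEq.eq_of_lt_of_lt h4 h1 hbl
    · rintro (rfl | rfl)
      · refine ⟨hal, Or.inl ?_⟩
        have := Int.modEq_iff_dvd.1 haq
        rw [show -((N : ℤ) ^ 2 + 1) - (x : ℤ) = -(N ^ 2 + x + 1) by ring] at this
        exact (dvd_neg).1 this
      · exact ⟨hbl, Or.inr (Int.modEq_iff_dvd.1 hbq)⟩
  have hab : a = b ↔ q ∣ 2 * (N ^ 2 + N + 1) := by
    have h0 : (q : ℤ) ∣ ((N : ℤ) + 1) ^ 2 - -((N : ℤ) ^ 2 + 1) ↔ q ∣ 2 * (N ^ 2 + N + 1) := by
      rw [show ((N : ℤ) + 1) ^ 2 - -((N : ℤ) ^ 2 + 1) = ((2 * (N ^ 2 + N + 1) : ℕ) : ℤ) by push_cast; ring]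
      exact Int.natCast_dvd_natCast
    rw [← h0, ← Int.modEq_iff_dvd]
    constructor
    · intro h
      rw [h] at haq
      exact haq.symm.trans hbq
    · intro h
      have h3 : (a : ℤ) ≡ b [ZMOD q] := haq.trans (h.trans hbq.symm)
      have h4 : a ≡ b [MOD q] := by exact_mod_cast h3
      exact Nat.ModEq.eq_of_lt_of_lt h4 hal hbl
  unfold nuP nuN
  rw [hset]
  by_cases h : a = b
  · rw [if_pos (hab.1 h), h]
    simp
  · rw [if_neg (fun h' => h (hab.2 h')), card_pair h]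

theorem VP_gN (N : ℕ) : VP (∏ k, gN N k) (2 * N) = VN N := by
  unfold VP VN
  apply prod_congr rfl
  intro q hq
  rw [nuP_eq N (mem_filter.1 hq).2]

/-- the telescoping product -/
theorem tele (n : ℕ) : (1 : ℝ) / 2 ≤ ∏ j ∈ Icc 2 (n + 2), (1 - 1 / (j : ℝ) ^ 2) := by
  have h : ∏ j ∈ Icc 2 (n + 2), (1 - 1 / (j : ℝ) ^ 2) = ((n : ℝ) + 3) / (2 * (n + 2)) := by
    induction n with
    | zero => norm_num
    | succ n ih =>
      rw [show n + 1 + 2 = (n + 2) + 1 by ring, prod_Icc_succ_top (by omega), ih]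
      push_cast
      field_simp
      ring
  rw [h, div_le_div_iff₀ (by norm_num) (by positivity)]
  linarith

theorem VN_low : ∃ c : ℝ, 0 < c ∧ ∀ N : ℕ, 2 ≤ N → c / Real.log N ^ 2 ≤ VN N := by
  classical
  obtain ⟨c, C, hc, hC, h⟩ := V1_bounds
  refine ⟨c ^ 2 / 8, by positivity, fun N hN => ?_⟩
  have hNr : (2 : ℝ) ≤ N := by exact_mod_cast hN
  have hl : 0 < Real.log N := Real.log_pos (by linarith)
  have h1 := (h (2 * N) (by omega)).1
  have hl2 : Real.log ((2 * N : ℕ) : ℝ) ≤ 2 * Real.log N := by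
    push_cast
    rw [Real.log_mul (by norm_num) (by linarith)]
    have := Real.log_le_log (by norm_num) hNr
    linarith
  have hl0 : 0 < Real.log ((2 * N : ℕ) : ℝ) := Real.log_pos (by push_cast; linarith)
  have h2 : c / (2 * Real.log N) ≤ V1 (2 * N) := by
    refine le_trans ?_ h1
    exact div_le_div_of_nonneg_left hc.le hl0 hl2
  have hP : (Icc 1 (2 * N)).filter Nat.Prime = Pr 0 (2 * N) := by
    ext q
    rw [Pr_mem, mem_filter, mem_Icc]
    constructor
    · rintro ⟨⟨a, b⟩, c⟩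
      exact ⟨⟨c.pos, b⟩, c⟩
    · rintro ⟨⟨a, b⟩, c⟩
      exact ⟨⟨c.pos, b⟩, c⟩
  -- the correction factor
  set u : ℕ → ℝ := fun q => if q = 2 then 1 else 1 - 1 / ((q : ℝ) - 1) ^ 2 with hu
  have hfac : ∀ q ∈ Pr 0 (2 * N), (1 - 1 / (q : ℝ)) ^ 2 * u q ≤ 1 - (nuN N q : ℝ) / q := by
    intro q hq
    have hqp := Pr_prime hq
    have hq2 : (2 : ℝ) ≤ q := by exact_mod_cast hqp.two_le
    rw [hu]
    dsimp only
    split_ifs with h3
    · subst h3
      unfold nuN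
      rw [if_pos (Dvd.intro _ rfl)]
      norm_num
    · have hq3 : (3 : ℝ) ≤ q := by
        have : 3 ≤ q := by have := hqp.two_le; omega
        exact_mod_cast this
      have h4 : (1 - 1 / (q : ℝ)) ^ 2 * (1 - 1 / ((q : ℝ) - 1) ^ 2) = 1 - 2 / q := by
        have e1 : (q : ℝ) - 1 ≠ 0 := by linarith
        have e2 : (q : ℝ) ≠ 0 := by linarith
        field_simp
        ring
      rw [h4]
      have h5 : (nuN N q : ℝ) ≤ 2 := by
        unfold nuN
        split_ifs <;> norm_num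
      have h6 : (nuN N q : ℝ) / q ≤ 2 / q := div_le_div_of_nonneg_right h5 (by linarith)
      linarith
  have hu0 : ∀ q ∈ Pr 0 (2 * N), 0 ≤ u q := by
    intro q hq
    have hqp := Pr_prime hq
    rw [hu]
    dsimp only
    split_ifs with h3
    · norm_num
    · have hq3 : (3 : ℝ) ≤ q := by
        have : 3 ≤ q := by have := hqp.two_le; omega
        exact_mod_cast this
      rw [sub_nonneg, div_le_one (by nlinarith)]
      nlinarith
  have hprodu : (1 : ℝ) / 2 ≤ ∏ q ∈ Pr 0 (2 * N), u q := by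
    have h3 : ∏ q ∈ Pr 0 (2 * N), u q = ∏ q ∈ (Pr 0 (2 * N)).erase 2, (1 - 1 / ((q : ℝ) - 1) ^ 2) := by
      have hmem : 2 ∈ Pr 0 (2 * N) := Pr_mem.2 ⟨⟨by norm_num, by omega⟩, Nat.prime_two⟩
      rw [← mul_prod_erase _ _ hmem]
      have e : u 2 = 1 := by rw [hu]; simp
      rw [e, one_mul]
      apply prod_congr rfl
      intro q hq
      rw [hu]
      simp only [if_neg (ne_of_mem_erase hq)]
    rw [h3]
    have h4 : ∏ q ∈ (Pr 0 (2 * N)).erase 2, (1 - 1 / ((q : ℝ) - 1) ^ 2) =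
        ∏ j ∈ ((Pr 0 (2 * N)).erase 2).image (fun q : ℕ => q - 1), (1 - 1 / (j : ℝ) ^ 2) := by
      rw [prod_image]
      · apply prod_congr rfl
        intro q hq
        have := (Pr_prime (mem_of_mem_erase hq)).pos
        rw [Nat.cast_sub (by omega)]
        simp
      · intro a ha b hb hab
        have h5 := (Pr_prime (mem_of_mem_erase ha)).pos
        have h6 := (Pr_prime (mem_of_mem_erase hb)).pos
        simp only at hab
        omega
    rw [h4]
    have hsub : ((Pr 0 (2 * N)).erase 2).image (fun q : ℕ => q - 1) ⊆ Icc 2 (2 * N + 2) := by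
      intro j hj
      rw [mem_image] at hj
      obtain ⟨q, hq, rfl⟩ := hj
      have h5 := Pr_mem.1 (mem_of_mem_erase hq)
      have h6 := ne_of_mem_erase hq
      have h7 := h5.2.two_le
      rw [mem_Icc]
      omega
    have hj : ∀ j ∈ Icc 2 (2 * N + 2), 0 ≤ 1 - 1 / (j : ℝ) ^ 2 ∧ 1 - 1 / (j : ℝ) ^ 2 ≤ 1 := by
      intro j hj
      rw [mem_Icc] at hj
      have h5 : (2 : ℝ) ≤ j := by exact_mod_cast hj.1
      constructor
      · rw [sub_nonneg, div_le_one (by nlinarith)]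
        nlinarith
      · have : (0 : ℝ) ≤ 1 / (j : ℝ) ^ 2 := by positivity
        linarith
    refine (tele (2 * N)).trans ?_
    rw [← prod_sdiff hsub]
    apply mul_le_of_le_one_left
    · exact prod_nonneg fun j hj' => (hj j (hsub hj')).1
    · exact Finset.prod_le_one (fun j hj' => (hj j (Finset.mem_sdiff.1 hj').1).1)
        (fun j hj' => (hj j (Finset.mem_sdiff.1 hj').1).2)
  unfold VN
  rw [hP]
  calc c ^ 2 / 8 / Real.log N ^ 2 = (c / (2 * Real.log N)) ^ 2 * (1 / 2) := by ring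
    _ ≤ V1 (2 * N) ^ 2 * ∏ q ∈ Pr 0 (2 * N), u q := by
        apply mul_le_mul _ hprodu (by norm_num) (by positivity)
        exact pow_le_pow_left₀ (by positivity) h2 2
    _ = ∏ q ∈ Pr 0 (2 * N), ((1 - 1 / (q : ℝ)) ^ 2 * u q) := by
        unfold V1
        rw [← prod_pow, ← prod_mul_distrib]
    _ ≤ _ := by
        apply Finset.prod_le_prod
        · intro q hq
          exact mul_nonneg (sq_nonneg _) (hu0 q hq)
        · exact hfac

end Pool.Agent.Q56.UN
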