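import Pool.Agent.Q56.UN.Sq

/-!
# Pairs between consecutive squares: the theorem
-/

set_option autoImplicit false

namespace Pool.Agent.Q56.UN

open Finset Filter
open Pool.Agent.Q56.LN (AP log_small)

open Classical in
theorem squares : ∃ (R N₀ : ℕ) (δ κ C : ℝ), 0 < δ ∧ 0 < κ ∧ 0 < C ∧ ∀ N : ℕ, N₀ ≤ N →
    κ / Real.log N ^ 2 ≤ VN N ∧
    κ * (N * VN N) ≤ (((Icc 2 (2 * N)).filter (fun k : ℕ =>
      AP R ((N : ℝ) ^ δ) ((N : ℤ) ^ 2 + k + 1) ∧ AP R ((N : ℝ) ^ δ) (((N : ℤ) + 1) ^ 2 - k))).card : ℝ) ∧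
    (((Icc 2 (2 * N)).filter (fun k : ℕ => ((N : ℤ) ^ 2 + k + 1).natAbs.Prime ∧
      (((N : ℤ) + 1) ^ 2 - k).natAbs.Prime)).card : ℝ) ≤ C * (N * VN N) := by
  obtain ⟨R, X₀, δ, κ, C, hδ, hκ, hC, h⟩ := uni 2 3
  obtain ⟨c, hc, hV⟩ := VN_low
  obtain ⟨n2, hn2⟩ := eventually_atTop.1 (log_small 2 (1 / (κ * c)) (by positivity))
  refine ⟨R, X₀ + n2 + 3, δ, min c κ, 2 * C, hδ, lt_min hc hκ, by positivity, fun N hN => ?_⟩
  have hN3 : 3 ≤ N := by omega
  have hNr : (3 : ℝ) ≤ N := by exact_mod_cast hN3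
  have hlog : 0 < Real.log N := Real.log_pos (by linarith)
  have hVN := hV N (by omega)
  have hV0 : 0 < VN N := lt_of_lt_of_le (by positivity) hVN
  have h1 := h (2 * N) (by omega) 2 (gN N) (gN_deg N) (by
    intro k x hx1 hx2
    have hNz : (3 : ℤ) ≤ N := by exact_mod_cast hN3
    have hx1z : (1 : ℤ) ≤ x := by exact_mod_cast hx1
    have hx2z : (x : ℤ) ≤ 2 * N := by exact_mod_cast hx2
    have hb : ((2 * N : ℕ) : ℤ) ^ 3 = 8 * (N : ℤ) ^ 3 := by push_cast; ring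
    rw [hb]
    have h3 : 3 * (N : ℤ) ^ 2 ≤ N ^ 3 := by nlinarith [sq_nonneg (N : ℤ)]
    fin_cases k
    · simp only [Fin.zero_eta, Fin.isValue, gN0]
      rw [abs_of_nonneg (by positivity)]
      nlinarith
    · simp only [Fin.mk_one, Fin.isValue, gN1]
      rw [abs_of_nonneg (by nlinarith)]
      nlinarith)
    (fun k z _ => gN_ne N k z) (gN_fix N)
  rw [VP_gN] at h1
  obtain ⟨h2, h3⟩ := h1
  have hcast : ((2 * N : ℕ) : ℝ) = 2 * N := by push_cast; ring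
  rw [hcast] at h2 h3
  have hone : 1 ≤ κ * (N * VN N) := by
    have q1 : 1 / (κ * c) * Real.log N ^ 2 ≤ N := hn2 N (by omega)
    have q2 : c / Real.log N ^ 2 * N ≤ VN N * N := mul_le_mul_of_nonneg_right hVN (by positivity)
    rw [div_mul_eq_mul_div, one_mul, div_le_iff₀ (by positivity)] at q1
    have q3 : 1 ≤ κ * (c / Real.log N ^ 2 * N) := by
      rw [show κ * (c / Real.log N ^ 2 * N) = N * (κ * c) / Real.log N ^ 2 by ring, le_div_iff₀ (by positivity), one_mul]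
      exact q1
    have q4 := mul_le_mul_of_nonneg_left q2 hκ.le
    linarith
  refine ⟨le_trans (div_le_div_of_nonneg_right (min_le_left _ _) (by positivity)) hVN, ?_, ?_⟩
  · have hle : (((Icc 1 (2 * N)).filter (fun x : ℕ =>
        ∀ k, AP R ((2 * (N : ℝ)) ^ δ) ((gN N k).eval (x : ℤ)))).card : ℝ) ≤
        (((Icc 2 (2 * N)).filter (fun k : ℕ =>
          AP R ((N : ℝ) ^ δ) ((N : ℤ) ^ 2 + k + 1) ∧ AP R ((N : ℝ) ^ δ) (((N : ℤ) + 1) ^ 2 - k))).card : ℝ) + 1 := by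
      have hsub : (Icc 1 (2 * N)).filter (fun x : ℕ =>
          ∀ k, AP R ((2 * (N : ℝ)) ^ δ) ((gN N k).eval (x : ℤ))) ⊆
          (Icc 2 (2 * N)).filter (fun k : ℕ =>
          AP R ((N : ℝ) ^ δ) ((N : ℤ) ^ 2 + k + 1) ∧ AP R ((N : ℝ) ^ δ) (((N : ℤ) + 1) ^ 2 - k)) ∪ {1} := by
        intro x hx
        rw [mem_filter, mem_Icc] at hx
        obtain ⟨⟨x1, x2⟩, hx⟩ := hx
        rw [mem_union, mem_singleton]
        by_cases hx1 : x = 1
        · right; exact hx1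
        · left
          rw [mem_filter, mem_Icc]
          have hmono : ∀ v : ℤ, AP R ((2 * (N : ℝ)) ^ δ) v → AP R ((N : ℝ) ^ δ) v := by
            rintro v ⟨a1, a2, a3⟩
            refine ⟨a1, a2, fun q hq hd => lt_of_le_of_lt ?_ (a3 q hq hd)⟩
            exact Real.rpow_le_rpow (by positivity) (by linarith) hδ.le
          refine ⟨⟨by omega, x2⟩, ?_, ?_⟩
          · have := hmono _ (hx 0)
            rwa [gN0] at this
          · have := hmono _ (hx 1)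
            rwa [gN1] at this
      have := (card_le_card hsub).trans (card_union_le _ _)
      rw [card_singleton] at this
      exact_mod_cast this
    have h4 : κ * (2 * N * VN N) ≤ _ := h2.trans hle
    have h5 : min c κ * (N * VN N) ≤ κ * (N * VN N) := mul_le_mul_of_nonneg_right (min_le_right _ _) (by positivity)
    linarith
  · have h4 := h3 (by norm_num)
    have hsub : (Icc 2 (2 * N)).filter (fun k : ℕ => ((N : ℤ) ^ 2 + k + 1).natAbs.Prime ∧
        (((N : ℤ) + 1) ^ 2 - k).natAbs.Prime) ⊆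
        (Icc 1 (2 * N)).filter (fun x : ℕ => ∀ k, ((gN N k).eval (x : ℤ)).natAbs.Prime) := by
      intro x hx
      rw [mem_filter, mem_Icc] at hx ⊢
      obtain ⟨⟨x1, x2⟩, x3, x4⟩ := hx
      refine ⟨⟨by omega, x2⟩, ?_⟩
      rw [Fin.forall_fin_two, gN0, gN1]
      exact ⟨x3, x4⟩
    have h5 : (((Icc 2 (2 * N)).filter (fun k : ℕ => ((N : ℤ) ^ 2 + k + 1).natAbs.Prime ∧
        (((N : ℤ) + 1) ^ 2 - k).natAbs.Prime)).card : ℝ) ≤
        (((Icc 1 (2 * N)).filter (fun x : ℕ => ∀ k, ((gN N k).eval (x : ℤ)).natAbs.Prime)).card : ℝ) := by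
      exact_mod_cast card_le_card hsub
    calc _ ≤ _ := h5
      _ ≤ _ := h4
      _ = _ := by ring

end Pool.Agent.Q56.UN
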