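import Pool.Agent.Q56.LN.Alm

/-!
# Almost prime values of integer polynomials, uniformly in the polynomials
-/

set_option autoImplicit false

namespace Pool.Agent.Q56.UN

open Finset Filter
open Pool.Agent.Y843.HS (Pr VV Pr_mem Pr_prime VV_split)
open Pool.Agent.Y843.HG (Z0 V1 V1_bounds V1_pos fac1 log_floor VV_low)
open Pool.Agent.H373R2.T7 (PerB nuB pz sys_fund mem_pz)
open Pool.Agent.Q56.LN (AP AP_of Zc dvd_eval_iff roots_mod few_unit log_small VV_cmp VV_ge')

open Classical in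
/-- the number of the roots modulo `q` -/
noncomputable def nuP (P : Polynomial ℤ) (q : ℕ) : ℕ :=
  ((range q).filter (fun x : ℕ => (q : ℤ) ∣ P.eval (x : ℤ))).card

/-- the sieve product -/
noncomputable def VP (P : Polynomial ℤ) (X : ℕ) : ℝ := ∏ q ∈ (Icc 1 X).filter Nat.Prime, (1 - (nuP P q : ℝ) / q)

/-- no prime divides all the values -/
def NoFix (P : Polynomial ℤ) : Prop := ∀ q : ℕ, q.Prime → ∃ x : ℤ, ¬ (q : ℤ) ∣ P.eval x

theorem Zc_card' (P : Polynomial ℤ) (q : ℕ) : (Zc P 1 0 q).card = nuP P q := by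
  classical
  unfold Zc nuP
  congr 1
  ext r
  simp only [mem_filter, one_mul, add_zero]

theorem nuP_lt {P : Polynomial ℤ} (h : NoFix P) {q : ℕ} (hq : q.Prime) : nuP P q < q := by
  classical
  unfold nuP
  obtain ⟨x, hx⟩ := h q hq
  have hq' : (q : ℤ) ≠ 0 := by exact_mod_cast hq.ne_zero
  have hq0 : (0 : ℤ) < q := by exact_mod_cast hq.pos
  have klt : (x % q).toNat < q := by
    have h1 := Int.emod_lt_of_pos x hq0
    have h2 := Int.emod_nonneg x hq'
    omega
  have h1 : (range q).filter (fun x : ℕ => (q : ℤ) ∣ P.eval (x : ℤ)) ⊂ range q := by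
    rw [Finset.ssubset_iff_of_subset (filter_subset _ _)]
    refine ⟨(x % q).toNat, mem_range.2 klt, ?_⟩
    rw [mem_filter]
    rintro ⟨-, h2⟩
    apply hx
    have h3 : (((x % q).toNat : ℕ) : ℤ) ≡ x [ZMOD q] := by
      rw [Int.toNat_of_nonneg (Int.emod_nonneg x hq')]
      exact Int.mod_modEq _ _
    exact (dvd_eval_iff P h3).1 h2
  have := card_lt_card h1
  rwa [card_range] at this

theorem nuP_le {P : Polynomial ℤ} (h : NoFix P) {q : ℕ} (hq : q.Prime) : nuP P q ≤ P.natDegree := by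
  classical
  obtain ⟨x, hx⟩ := h q hq
  have := roots_mod hq P ⟨x, hx⟩
  unfold nuP
  convert this

theorem VP_eq (P : Polynomial ℤ) (X : ℕ) : VP P X = VV (Zc P 1 0) 0 X := by
  unfold VP VV
  apply prod_congr
  · ext q
    rw [Pr_mem, mem_filter, mem_Icc]
    constructor
    · rintro ⟨⟨a, b⟩, c⟩
      exact ⟨⟨c.pos, b⟩, c⟩
    · rintro ⟨⟨a, b⟩, c⟩
      exact ⟨⟨c.pos, b⟩, c⟩
  · intro q _
    rw [Zc_card']

theorem VP_low (D : ℕ) : ∃ c : ℝ, 0 < c ∧ ∀ X : ℕ, 2 * D + 3 ≤ X → ∀ P : Polynomial ℤ, P.natDegree ≤ D → NoFix P →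
    c / Real.log X ^ (2 * D) ≤ VP P X := by
  obtain ⟨c, hc, h⟩ := VV_low D
  refine ⟨c, hc, fun X hX P hP hf => ?_⟩
  rw [VP_eq]
  apply h X hX
  intro p hp
  have hpp := Pr_prime hp
  rw [Zc_card']
  refine ⟨(nuP_le hf hpp).trans hP, nuP_lt hf hpp, ?_⟩
  intro c hc
  unfold Zc at hc
  rw [mem_filter, mem_range] at hc
  exact hc.1

theorem prodpz_eq' (P : Polynomial ℤ) (y : ℕ) :
    ∏ p ∈ pz y, (1 - (nuB (fun p r => (p : ℤ) ∣ P.eval (r : ℤ)) p : ℝ) / p) = VV (Zc P 1 0) 0 y := by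
  classical
  unfold VV
  apply prod_congr
  · ext q
    rw [mem_pz, Pr_mem]
    constructor
    · rintro ⟨a, b⟩
      exact ⟨⟨b.pos, a⟩, b⟩
    · rintro ⟨⟨a, b⟩, c⟩
      exact ⟨b, c⟩
  · intro q hq
    have h1 : nuB (fun p r => (p : ℤ) ∣ P.eval (r : ℤ)) q = (Zc P 1 0 q).card := by
      unfold nuB Zc
      congr 1
      ext r
      simp only [mem_filter, one_mul, add_zero]
    rw [h1]

/-- few units -/
theorem few_fam' {m : ℕ} (g : Fin m → Polynomial ℤ)
    (h : ∀ k, ∀ z : ℤ, (z = 1 ∨ z = -1) → g k ≠ Polynomial.C z) (S : Finset ℕ) :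
    (S.filter (fun t : ℕ => ∃ k, ((g k).eval (t : ℤ)).natAbs = 1)).card ≤ 2 * ∑ k, (g k).natDegree := by
  classical
  have h1 : S.filter (fun t : ℕ => ∃ k, ((g k).eval (t : ℤ)).natAbs = 1) ⊆
      univ.biUnion (fun k => S.filter (fun t : ℕ => ((g k).eval (t : ℤ)).natAbs = 1)) := by
    intro t ht
    rw [mem_filter] at ht
    obtain ⟨ht, k, hk⟩ := ht
    rw [mem_biUnion]
    exact ⟨k, mem_univ _, mem_filter.2 ⟨ht, hk⟩⟩
  refine (card_le_card h1).trans (card_biUnion_le.trans ?_)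
  rw [mul_sum]
  apply Finset.sum_le_sum
  intro k _
  calc (S.filter (fun t : ℕ => ((g k).eval (t : ℤ)).natAbs = 1)).card
      ≤ ((S.image (fun t : ℕ => (t : ℤ))).filter (fun t => ((g k).eval t).natAbs = 1)).card := by
        apply card_le_card_of_injOn (fun t : ℕ => (t : ℤ))
        · intro t ht
          rw [mem_coe, mem_filter] at ht ⊢
          exact ⟨mem_image_of_mem _ ht.1, ht.2⟩
        · exact Nat.cast_injective.injOn
    _ ≤ 2 * (g k).natDegree := few_unit _ (h k 1 (Or.inl rfl)) (h k (-1) (Or.inr rfl)) _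

/-- few small values -/
theorem few_small' {m : ℕ} (g : Fin m → Polynomial ℤ) (y : ℕ)
    (h : ∀ k, ∀ z : ℤ, g k ≠ Polynomial.C z) (S : Finset ℕ) :
    (S.filter (fun x : ℕ => ∃ k, ((g k).eval (x : ℤ)).natAbs ≤ y)).card ≤ (2 * y + 1) * ∑ k, (g k).natDegree := by
  classical
  have h1 : S.filter (fun x : ℕ => ∃ k, ((g k).eval (x : ℤ)).natAbs ≤ y) ⊆
      univ.biUnion (fun k => (Icc (-(y : ℤ)) y).biUnion (fun z =>
        S.filter (fun x : ℕ => (g k).eval (x : ℤ) = z))) := by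
    intro x hx
    rw [mem_filter] at hx
    obtain ⟨hx, k, hk⟩ := hx
    rw [mem_biUnion]
    refine ⟨k, mem_univ _, ?_⟩
    rw [mem_biUnion]
    refine ⟨(g k).eval (x : ℤ), ?_, mem_filter.2 ⟨hx, rfl⟩⟩
    rw [mem_Icc]
    omega
  refine (card_le_card h1).trans (card_biUnion_le.trans ?_)
  rw [mul_sum]
  apply Finset.sum_le_sum
  intro k _
  refine card_biUnion_le.trans ?_
  have h2 : ∀ z ∈ Icc (-(y : ℤ)) y, (S.filter (fun x : ℕ => (g k).eval (x : ℤ) = z)).card ≤
      (g k).natDegree := by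
    intro z _
    have hne : g k - Polynomial.C z ≠ 0 := sub_ne_zero.2 (h k z)
    calc (S.filter (fun x : ℕ => (g k).eval (x : ℤ) = z)).card
        ≤ (g k - Polynomial.C z).roots.toFinset.card := by
          apply card_le_card_of_injOn (fun x : ℕ => (x : ℤ))
          · intro x hx
            rw [mem_coe, mem_filter] at hx
            rw [mem_coe, Multiset.mem_toFinset, Polynomial.mem_roots hne, Polynomial.IsRoot, Polynomial.eval_sub,
              Polynomial.eval_C, hx.2, sub_self]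
          · exact Nat.cast_injective.injOn
      _ ≤ Multiset.card (g k - Polynomial.C z).roots := Multiset.toFinset_card_le _
      _ ≤ (g k - Polynomial.C z).natDegree := Polynomial.card_roots' _
      _ = (g k).natDegree := Polynomial.natDegree_sub_C
  refine (Finset.sum_le_sum h2).trans ?_
  rw [sum_const, Int.card_Icc, smul_eq_mul]
  apply Nat.mul_le_mul_right
  omega

open Classical in
/-- **almost prime values, uniformly in the polynomials**: `D` bounds the sum of the degrees, the values for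
`1 ≤ x ≤ X` are at most `X ^ A` -/
theorem uni (D A : ℕ) : ∃ (R X₀ : ℕ) (δ κ C : ℝ), 0 < δ ∧ 0 < κ ∧ 0 < C ∧ ∀ X : ℕ, X₀ ≤ X → ∀ (m : ℕ)
    (g : Fin m → Polynomial ℤ), ∑ k, (g k).natDegree ≤ D →
    (∀ k, ∀ x : ℕ, 1 ≤ x → x ≤ X → |(g k).eval (x : ℤ)| ≤ (X : ℤ) ^ A) →
    (∀ k, ∀ z : ℤ, (z = 1 ∨ z = -1) → g k ≠ Polynomial.C z) → NoFix (∏ k, g k) →
      (κ * (X * VP (∏ k, g k) X) ≤ (((Icc 1 X).filter (fun x : ℕ =>
        ∀ k, AP R ((X : ℝ) ^ δ) ((g k).eval (x : ℤ)))).card : ℝ)) ∧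
      (1 ≤ m → (((Icc 1 X).filter (fun x : ℕ => ∀ k, ((g k).eval (x : ℤ)).natAbs.Prime)).card : ℝ) ≤
        C * (X * VP (∏ k, g k) X)) := by
  classical
  obtain ⟨t, x0, ht, hfund⟩ := sys_fund (D + 1) (by omega) (1 / 2) (by norm_num)
  obtain ⟨t', ht'⟩ : ∃ t', t' = 2 * t := ⟨_, rfl⟩
  have ht'1 : 1 ≤ t' := by omega
  have ht0 : (0 : ℝ) < t' := by exact_mod_cast ht'1
  obtain ⟨cV, hcV, hVlow⟩ := VP_low D
  obtain ⟨c1, C1, hc1, hC1, hVb⟩ := V1_bounds
  obtain ⟨n3, hn3⟩ := log_floor t' ht'1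
  set K := Real.exp (-(2 * (D : ℕ) * (1 : ℕ) : ℝ)) with hK
  have hK0 : 0 < K := Real.exp_pos _
  obtain ⟨L, hL⟩ : ∃ L : ℝ, L = (c1 / (C1 * (2 * t'))) ^ (2 * D) := ⟨_, rfl⟩
  have hL0 : 0 < L := by rw [hL]; positivity
  obtain ⟨E, hE⟩ : ∃ E : ℝ, E = 32 * (D + 1) * (1 + K) / (K * cV) := ⟨_, rfl⟩
  have hE0 : 0 < E := by rw [hE]; positivity
  have e1 : ∀ᶠ n : ℕ in atTop, (2 * D + x0 + 3 : ℝ) ≤ (n : ℝ) ^ (1 / (t' : ℝ)) :=
    ((tendsto_rpow_atTop (show (0 : ℝ) < 1 / t' by positivity)).comp tendsto_natCast_atTop_atTop).eventually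
      (eventually_ge_atTop _)
  have e3 := log_small (2 * (2 * D)) (E ^ 2) (by positivity)
  obtain ⟨n2, hn2⟩ := eventually_atTop.1 (e1.and e3)
  refine ⟨t' * (A + 1), n2 + n3 + 2 * D + 4, 1 / (t' : ℝ), K / 8, 3 / (2 * L) + 3,
    by positivity, by positivity, by positivity, ?_⟩
  intro n hn m g hdeg hsz hun hf
  obtain ⟨P, hP⟩ : ∃ P : Polynomial ℤ, P = ∏ k, g k := ⟨_, rfl⟩
  rw [← hP] at hf ⊢
  have hPdeg : P.natDegree ≤ D := by
    rw [hP]
    exact (Polynomial.natDegree_prod_le _ _).trans hdeg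
  have hPev : ∀ x : ℤ, P.eval x = ∏ k, (g k).eval x := by
    intro x; rw [hP, Polynomial.eval_prod]
  obtain ⟨g2, g3⟩ := hn2 n (by omega)
  have hn4 : 4 ≤ n := by omega
  have hnr : (4 : ℝ) ≤ n := by exact_mod_cast hn4
  have hn0 : (0 : ℝ) < n := by linarith
  have hlog : 0 < Real.log n := Real.log_pos (by linarith)
  obtain ⟨w, hw⟩ : ∃ w : ℝ, w = (n : ℝ) ^ (1 / (t' : ℝ)) := ⟨_, rfl⟩
  obtain ⟨hy2, hlogy⟩ := hn3 n (by omega)
  rw [← hw] at g2 hy2 hlogy ⊢
  obtain ⟨y, hy⟩ : ∃ y : ℕ, y = ⌊w⌋₊ := ⟨_, rfl⟩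
  rw [← hy] at hy2 hlogy
  have hw0 : 0 ≤ w := by rw [hw]; positivity
  have hyw : (y : ℝ) ≤ w := by rw [hy]; exact Nat.floor_le hw0
  have hD0 : (0 : ℝ) ≤ D := Nat.cast_nonneg _
  have hx00 : (0 : ℝ) ≤ x0 := Nat.cast_nonneg _
  have hy3 : 2 * D + x0 + 3 ≤ y := by
    rw [hy]
    apply Nat.le_floor
    push_cast
    linarith
  have hwt : w ^ t' = n := by
    rw [hw, ← Real.rpow_natCast, ← Real.rpow_mul hn0.le, one_div, inv_mul_cancel₀ ht0.ne', Real.rpow_one]
  have hw1 : 1 ≤ w := by linarith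
  have hyt : y ^ t ≤ n := by
    have h1 : ((y : ℝ)) ^ t' ≤ n := by rw [← hwt]; exact pow_le_pow_left₀ (Nat.cast_nonneg _) hyw _
    have h2 : y ^ t' ≤ n := by exact_mod_cast h1
    refine le_trans (Nat.pow_le_pow_right (by omega) (by omega)) h2
  have hy2n : (y : ℝ) ≤ Real.sqrt n := by
    apply Real.le_sqrt_of_sq_le
    calc (y : ℝ) ^ 2 ≤ w ^ 2 := pow_le_pow_left₀ (Nat.cast_nonneg _) hyw _
      _ ≤ w ^ t' := pow_le_pow_right₀ hw1 (by omega)
      _ = n := hwt
  have hyn : y ≤ n := by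
    have h1 : y ^ 1 ≤ y ^ t := Nat.pow_le_pow_right (by omega) ht
    rw [pow_one] at h1
    omega
  -- the fundamental lemma
  set Q : ℕ → ℕ → Prop := fun p r => (p : ℤ) ∣ P.eval (r : ℤ) with hQ
  have hnuB : ∀ q : ℕ, nuB Q q = nuP P q := by
    intro q
    unfold nuB nuP
    congr 1
    ext r
    simp only [mem_filter, hQ]
  have hper : PerB Q (D + 1) := by
    constructor
    · intro p r
      rw [hQ]
      have h1 : ((r % p : ℕ) : ℤ) ≡ (r : ℤ) [ZMOD p] := by
        push_cast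
        exact Int.mod_modEq _ _
      exact (dvd_eval_iff P h1).symm
    · intro p hp
      rw [hnuB]
      have := nuP_le hf hp
      omega
  have hmain := hfund n y (by omega) hyt Q hper n
  have hprod := prodpz_eq' P y
  rw [← hQ] at hprod
  rw [hprod] at hmain
  obtain ⟨W, hW⟩ : ∃ W : ℝ, W = VV (Zc P 1 0) 0 y := ⟨_, rfl⟩
  rw [← hW] at hmain
  obtain ⟨T, hT⟩ : ∃ T : Finset ℕ, T = (Icc 1 n).filter (fun r : ℕ => ∀ p ∈ pz y, ¬ Q p r) := ⟨_, rfl⟩
  have hTc : |(T.card : ℝ) - n * W| ≤ 1 / 2 * (n * W) + Real.sqrt n := by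
    rw [hT]
    convert hmain
  have hZ1 : ∀ q : ℕ, q.Prime → (Zc P 1 0 q).card ≤ D := fun q hq => by
    rw [Zc_card']; exact (nuP_le hf hq).trans hPdeg
  have hZ2 : ∀ q : ℕ, q.Prime → (Zc P 1 0 q).card < q := fun q hq => by
    rw [Zc_card']; exact nuP_lt hf hq
  have hcmp := VV_cmp (r := D) (C := 1) le_rfl (n := n) (Y := y) (by omega) (by omega) hZ1 hZ2
  rw [← VP_eq, ← hK, ← hW] at hcmp
  have hV := hVlow n (by omega) P hPdeg hf
  have hV0 : 0 < VP P n := lt_of_lt_of_le (by positivity) hV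
  have hW0 : 0 < W := lt_of_lt_of_le (by positivity) hcmp
  -- the error
  have hsq : Real.sqrt n * Real.sqrt n = n := Real.mul_self_sqrt hn0.le
  have hsq0 : 0 < Real.sqrt n := Real.sqrt_pos.2 hn0
  have hsq1 : 1 ≤ Real.sqrt n := by
    rw [Real.one_le_sqrt]; linarith
  have herr : 32 * (D + 1) * (1 + K) * Real.sqrt n ≤ K * (n * VP P n) := by
    have q1 : E * Real.log n ^ (2 * D) ≤ Real.sqrt n := by
      apply Real.le_sqrt_of_sq_le
      calc (E * Real.log n ^ (2 * D)) ^ 2 = E ^ 2 * Real.log n ^ (2 * (2 * D)) := by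
            rw [mul_pow, ← pow_mul, mul_comm (2 * D) 2]
        _ ≤ (n : ℝ) := g3
    have q2 : 32 * (D + 1) * (1 + K) ≤ Real.sqrt n * (K * (cV / Real.log n ^ (2 * D))) := by
      have q3 : 0 < Real.log n ^ (2 * D) := by positivity
      rw [hE, div_mul_eq_mul_div, div_le_iff₀ (by positivity)] at q1
      rw [show Real.sqrt n * (K * (cV / Real.log n ^ (2 * D))) =
        (Real.sqrt n * (K * cV)) / Real.log n ^ (2 * D) by ring, le_div_iff₀ q3]
      exact q1
    calc 32 * (D + 1) * (1 + K) * Real.sqrt n ≤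
          Real.sqrt n * (K * (cV / Real.log n ^ (2 * D))) * Real.sqrt n :=
          mul_le_mul_of_nonneg_right q2 hsq0.le
      _ = K * ((Real.sqrt n * Real.sqrt n) * (cV / Real.log n ^ (2 * D))) := by ring
      _ = K * (n * (cV / Real.log n ^ (2 * D))) := by rw [hsq]
      _ ≤ K * (n * VP P n) := by
          apply mul_le_mul_of_nonneg_left _ hK0.le
          exact mul_le_mul_of_nonneg_left hV hn0.le
  have hs32 : 32 * (D + 1) * Real.sqrt n ≤ K * (n * VP P n) := by
    refine le_trans ?_ herr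
    have : 0 ≤ 32 * ((D : ℝ) + 1) * K * Real.sqrt n := by positivity
    nlinarith
  have hs32' : 32 * (D + 1) * Real.sqrt n ≤ n * VP P n := by
    have q1 : 32 * (D + 1) * K * Real.sqrt n ≤ K * (n * VP P n) := by
      refine le_trans ?_ herr
      have : 0 ≤ 32 * ((D : ℝ) + 1) * Real.sqrt n := by positivity
      nlinarith
    have q2 : K * (32 * (D + 1) * Real.sqrt n) ≤ K * (n * VP P n) := by
      refine le_trans (le_of_eq ?_) q1
      ring
    exact le_of_mul_le_mul_left q2 hK0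
  have hnV : 0 < n * VP P n := by positivity
  have hdegr : ((∑ k, (g k).natDegree : ℕ) : ℝ) ≤ D := by exact_mod_cast hdeg
  refine ⟨?_, ?_⟩
  · -- the lower bound
    set S := T.filter (fun x : ℕ => ¬ ∃ k, ((g k).eval (x : ℤ)).natAbs = 1) with hS
    have hsplit := card_filter_add_card_filter_not (s := T)
      (fun x : ℕ => ∃ k, ((g k).eval (x : ℤ)).natAbs = 1)
    have hfew := few_fam' g hun T
    have hcard : (T.card : ℝ) ≤ S.card + 2 * D := by
      have hSs : (T.filter (fun x : ℕ => ∃ k, ((g k).eval (x : ℤ)).natAbs = 1)).card + S.card = T.card := by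
        rw [hS]
        convert hsplit
      have : T.card ≤ S.card + 2 * D := by omega
      exact_mod_cast this
    have hSG : S ⊆ (Icc 1 n).filter (fun x : ℕ => ∀ k, AP (t' * (A + 1)) w ((g k).eval (x : ℤ))) := by
      intro x hx
      rw [hS, mem_filter, hT, mem_filter, mem_Icc] at hx
      obtain ⟨⟨⟨x1, x2⟩, hx3⟩, hx1⟩ := hx
      push Not at hx1
      rw [mem_filter, mem_Icc]
      refine ⟨⟨x1, x2⟩, ?_⟩
      intro k
      rw [hw]
      apply AP_of ht'1 (C := 1) _ (by omega)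
      · rw [Nat.cast_one, one_mul]; exact hsz k x x1 x2
      · exact hx1 k
      · intro q hq hd
        by_contra hcon
        push Not at hcon
        rw [← hw] at hcon
        have hqy : q ≤ y := by rw [hy]; exact Nat.le_floor hcon
        apply hx3 q (mem_pz.2 ⟨hqy, hq⟩)
        rw [hQ]
        refine hd.trans ?_
        rw [hPev]
        exact dvd_prod_of_mem (fun k => (g k).eval (x : ℤ)) (mem_univ k)
      · rw [← hw]; linarith
    have hSc : (S.card : ℝ) ≤ (((Icc 1 n).filter (fun x : ℕ => ∀ k, AP (t' * (A + 1)) w ((g k).eval (x : ℤ)))).card : ℝ) := by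
      exact_mod_cast card_le_card hSG
    refine le_trans ?_ hSc
    have q1 := (abs_le.1 hTc).1
    have q2 : (n : ℝ) * (K * VP P n) ≤ n * W := mul_le_mul_of_nonneg_left hcmp hn0.le
    have q3 : (D : ℝ) ≤ D * Real.sqrt n := le_mul_of_one_le_right hD0 hsq1
    nlinarith
  · -- the upper bound
    intro hm
    by_cases hcst : ∃ k, ∃ z : ℤ, g k = Polynomial.C z
    · obtain ⟨k, z, hkz⟩ := hcst
      have h0 : (Icc 1 n).filter (fun x : ℕ => ∀ k, ((g k).eval (x : ℤ)).natAbs.Prime) = ∅ := by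
        rw [filter_eq_empty_iff]
        intro x _ hx
        have h1 := hx k
        rw [hkz, Polynomial.eval_C] at h1
        obtain ⟨x', hx'⟩ := hf _ h1
        apply hx'
        rw [hPev]
        have h2 : ((z.natAbs : ℕ) : ℤ) ∣ (g k).eval x' := by
          rw [hkz, Polynomial.eval_C]
          exact Int.natAbs_dvd.2 dvd_rfl
        exact h2.trans (dvd_prod_of_mem (fun k => (g k).eval x') (mem_univ k))
      rw [h0, card_empty]
      push_cast
      positivity
    · push Not at hcst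
      have hsub : (Icc 1 n).filter (fun x : ℕ => ∀ k, ((g k).eval (x : ℤ)).natAbs.Prime) ⊆
          T ∪ (Icc 1 n).filter (fun x : ℕ => ∃ k, ((g k).eval (x : ℤ)).natAbs ≤ y) := by
        intro x hx
        rw [mem_filter] at hx
        obtain ⟨hx, hx1⟩ := hx
        rw [mem_union]
        by_cases hs : ∃ k, ((g k).eval (x : ℤ)).natAbs ≤ y
        · right
          rw [mem_filter]
          exact ⟨hx, hs⟩
        · left
          push Not at hs
          rw [hT, mem_filter]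
          refine ⟨hx, ?_⟩
          intro p hp hd
          obtain ⟨p1, p2⟩ := mem_pz.1 hp
          rw [hQ] at hd
          have hd' : (p : ℤ) ∣ ∏ k, (g k).eval (x : ℤ) := by rw [← hPev]; exact hd
          rw [Prime.dvd_finsetProd_iff (Nat.prime_iff_prime_int.1 p2)] at hd'
          obtain ⟨k, _, hk⟩ := hd'
          have h1 : p ∣ ((g k).eval (x : ℤ)).natAbs := Int.natCast_dvd.1 hk
          have h2 := (Nat.prime_dvd_prime_iff_eq p2 (hx1 k)).1 h1
          have h3 := hs k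
          rw [← h2] at h3
          omega
      have hc1' := (card_le_card hsub).trans (card_union_le _ _)
      have hc2 := few_small' g y hcst (Icc 1 n)
      have hc3 : (((Icc 1 n).filter (fun x : ℕ => ∀ k, ((g k).eval (x : ℤ)).natAbs.Prime)).card : ℝ) ≤
          T.card + (2 * y + 1) * D := by
        have h1 : (2 * y + 1) * ∑ k, (g k).natDegree ≤ (2 * y + 1) * D := Nat.mul_le_mul_left _ hdeg
        exact_mod_cast hc1'.trans (Nat.add_le_add_left (hc2.trans h1) _)
      have q1 := (abs_le.1 hTc).2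
      -- the comparison of the products
      have hge := VV_ge' D (show 2 * D + 1 ≤ y by omega) hyn hZ1
      have hLV : L ≤ VV (Zc P 1 0) y n := by
        refine le_trans ?_ hge
        rw [hL]
        apply pow_le_pow_left₀ (by positivity)
        rw [le_div_iff₀ (V1_pos y)]
        have h1 := (hVb n (by omega)).1
        have h2 := (hVb y hy2).2
        have hly : 0 < Real.log y := Real.log_pos (by exact_mod_cast (show 1 < y by omega))
        calc c1 / (C1 * (2 * t')) * V1 y ≤ c1 / (C1 * (2 * t')) * (C1 / Real.log y) :=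
              mul_le_mul_of_nonneg_left h2 (by positivity)
          _ = c1 / (2 * t' * Real.log y) := by field_simp
          _ ≤ c1 / Real.log n := by
              apply div_le_div_of_nonneg_left hc1.le hlog
              rw [div_le_iff₀ (by positivity)] at hlogy
              linarith
          _ ≤ V1 n := h1
      have hVW : VP P n = W * VV (Zc P 1 0) y n := by
        rw [VP_eq, hW, VV_split _ (Nat.zero_le _) hyn]
      have hWV : W * L ≤ VP P n := by
        rw [hVW]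
        exact mul_le_mul_of_nonneg_left hLV hW0.le
      have hW2 : W ≤ VP P n / L := by rw [le_div_iff₀ hL0]; exact hWV
      have q2 : (T.card : ℝ) ≤ 3 / 2 * (n * W) + Real.sqrt n := by linarith
      have q3 : (2 * (y : ℝ) + 1) * D ≤ 3 * (D * Real.sqrt n) := by
        have h1 : (2 * (y : ℝ) + 1) ≤ 3 * Real.sqrt n := by linarith
        calc (2 * (y : ℝ) + 1) * D ≤ (3 * Real.sqrt n) * D := mul_le_mul_of_nonneg_right h1 hD0
          _ = _ := by ring
      have q4 : 3 / 2 * (n * W) ≤ 3 / (2 * L) * (n * VP P n) := by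
        calc 3 / 2 * (n * W) ≤ 3 / 2 * (n * (VP P n / L)) := by
              apply mul_le_mul_of_nonneg_left _ (by norm_num)
              exact mul_le_mul_of_nonneg_left hW2 hn0.le
          _ = _ := by field_simp
      have q5 : Real.sqrt n + 3 * (D * Real.sqrt n) ≤ 3 * (n * VP P n) := by
        have : 0 ≤ (D : ℝ) * Real.sqrt n := by positivity
        nlinarith
      calc (((Icc 1 n).filter (fun x : ℕ => ∀ k, ((g k).eval (x : ℤ)).natAbs.Prime)).card : ℝ) ≤
            T.card + (2 * y + 1) * D := hc3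
        _ ≤ 3 / (2 * L) * (n * VP P n) + 3 * (n * VP P n) := by linarith
        _ = _ := by ring

end Pool.Agent.Q56.UN
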